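import Pool.Agent.helper73.NS.AB
import Pool.Agent.helper95.NS.C

open Finset

namespace Pool.Agent.helper36.NS

open Pool.Agent.helper43.NO
open Pool.Agent.helper43.NS
open Pool.Agent.helper73.NS Pool.Agent.helper95.NS

lemma prodP_pos (P : Finset ℕ) (hP : ∀ p ∈ P, p.Prime) : (0 : ℝ) < ((∏ p ∈ P, p : ℕ) : ℝ) := by
  have h : 0 < ∏ p ∈ P, p := Finset.prod_pos (fun p hp => (hP p hp).pos)
  exact_mod_cast h

lemma tail_le (D n : ℕ) (hn : D < n) :
    (9 : ℝ) ^ n ≤ Real.exp (-(D : ℝ)) * (9 * Real.exp 1) ^ n := by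
  have h1 : Real.exp 1 ^ n = Real.exp (n : ℝ) := by
    rw [← Real.exp_nat_mul, mul_one]
  rw [mul_pow, h1]
  have h2 : Real.exp (-(D : ℝ)) * (9 ^ n * Real.exp (n : ℝ)) =
      9 ^ n * Real.exp ((n : ℝ) - D) := by
    rw [show (n : ℝ) - D = -(D : ℝ) + n by ring, Real.exp_add]
    ring
  rw [h2]
  have h3 : (1 : ℝ) ≤ Real.exp ((n : ℝ) - D) := by
    apply Real.one_le_exp
    have : (D : ℝ) < n := by exact_mod_cast hn
    linarith
  have h4 : (0 : ℝ) ≤ 9 ^ n := by positivity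
  nlinarith

lemma sum_frac (P : Finset ℕ) (hP : ∀ p ∈ P, p.Prime) (a : ℕ) :
    ∑ m ∈ Icc 1 (∏ p ∈ P, p), (if om P m = a then (1 : ℝ) else 0) =
      ((∏ p ∈ P, p : ℕ) : ℝ) * frac P a := by
  have hQ := prodP_pos P hP
  rw [Finset.sum_boole]
  unfold frac
  rw [mul_div_cancel₀ _ hQ.ne']

lemma diff_le (P : Finset ℕ) (hP : ∀ p ∈ P, p.Prime) (a D m : ℕ) :
    |Gf P (ca a D) m - (if om P m = a then 1 else 0)| ≤
      Real.exp (-(D : ℝ)) * (9 * Real.exp 1) ^ (om P m) := by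
  by_cases h : om P m ≤ D
  · rw [ca_mid P hP a D m h, sub_self, abs_zero]
    positivity
  · have h' : D < om P m := by omega
    refine le_trans ?_ (tail_le D (om P m) h')
    have h1 := ca_abs P hP a D m
    have h2 : |(if om P m = a then (1 : ℝ) else 0)| ≤ 1 := by
      split_ifs <;> simp
    have h3 : |Gf P (ca a D) m - (if om P m = a then 1 else 0)| ≤ 3 ^ (om P m) + 1 :=
      (abs_sub _ _).trans (add_le_add h1 h2)
    refine h3.trans ?_
    have h4 : (9 : ℝ) ^ (om P m) = 3 ^ (om P m) * 3 ^ (om P m) := by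
      rw [← mul_pow]; norm_num
    have h5 : (3 : ℝ) ≤ 3 ^ (om P m) := by
      calc (3 : ℝ) = 3 ^ 1 := (pow_one _).symm
        _ ≤ 3 ^ (om P m) := pow_le_pow_right₀ (by norm_num) (by omega)
    rw [h4]
    nlinarith

lemma sq_le (P : Finset ℕ) (hP : ∀ p ∈ P, p.Prime) (a D m : ℕ) :
    Gf P (ca a D) m * Gf P (ca a D) m ≤ (if om P m = a then 1 else 0) +
      Real.exp (-(D : ℝ)) * (9 * Real.exp 1) ^ (om P m) := by
  by_cases h : om P m ≤ D
  · rw [ca_mid P hP a D m h]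
    have h0 : (0 : ℝ) ≤ Real.exp (-(D : ℝ)) * (9 * Real.exp 1) ^ (om P m) := by positivity
    split_ifs <;> linarith
  · have h' : D < om P m := by omega
    have h1 := ca_abs P hP a D m
    have h2 : Gf P (ca a D) m * Gf P (ca a D) m ≤ 9 ^ (om P m) := by
      have h4 : (9 : ℝ) ^ (om P m) = 3 ^ (om P m) * 3 ^ (om P m) := by
        rw [← mul_pow]; norm_num
      rw [h4, ← abs_mul_abs_self]
      exact mul_le_mul h1 h1 (abs_nonneg _) (by positivity)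
    have h3 := tail_le D (om P m) h'
    have h5 : (0 : ℝ) ≤ (if om P m = a then (1 : ℝ) else 0) := by split_ifs <;> norm_num
    linarith

lemma sum_tail (P : Finset ℕ) (hP : ∀ p ∈ P, p.Prime) (D : ℕ) :
    ∑ m ∈ Icc 1 (∏ p ∈ P, p), Real.exp (-(D : ℝ)) * (9 * Real.exp 1) ^ (om P m) =
      ((∏ p ∈ P, p : ℕ) : ℝ) * (Real.exp (-(D : ℝ)) * pr P (9 * Real.exp 1 - 1)) := by
  rw [← Finset.mul_sum, avg_pow P hP]
  ring

/-- mean values of the truncated indicator. Averages over `m ∈ [1, ∏ P]` (`avg_Gf`, `Gf_mul`):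
`Gf = [om = a]` for `om ≤ D`, `|Gf| ≤ 3^om`, `Gf^2 ≤ 9^om` for `om > D`, and
`9^om [om > D] ≤ e^(-D) (9e)^om` (`avg_pow`). -/
theorem M_bounds (P : Finset ℕ) (hP : ∀ p ∈ P, p.Prime) (a D : ℕ) :
    |Mn P (ca a D) - frac P a| ≤ Real.exp (-(D : ℝ)) * pr P (9 * Real.exp 1 - 1) ∧
    Mn P (conv (ca a D) (ca a D)) ≤
      frac P a + Real.exp (-(D : ℝ)) * pr P (9 * Real.exp 1 - 1) := by
  have hQ := prodP_pos P hP
  constructor
  · have h1 : ((∏ p ∈ P, p : ℕ) : ℝ) * (Mn P (ca a D) - frac P a) =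
        ∑ m ∈ Icc 1 (∏ p ∈ P, p), (Gf P (ca a D) m - (if om P m = a then 1 else 0)) := by
      rw [Finset.sum_sub_distrib, avg_Gf P hP, sum_frac P hP, mul_sub]
    have h2 : ((∏ p ∈ P, p : ℕ) : ℝ) * |Mn P (ca a D) - frac P a| ≤
        ((∏ p ∈ P, p : ℕ) : ℝ) * (Real.exp (-(D : ℝ)) * pr P (9 * Real.exp 1 - 1)) := by
      calc ((∏ p ∈ P, p : ℕ) : ℝ) * |Mn P (ca a D) - frac P a|
          = |((∏ p ∈ P, p : ℕ) : ℝ) * (Mn P (ca a D) - frac P a)| := by
            rw [abs_mul, abs_of_pos hQ]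
        _ ≤ ∑ m ∈ Icc 1 (∏ p ∈ P, p),
              |Gf P (ca a D) m - (if om P m = a then 1 else 0)| := by
            rw [h1]
            exact Finset.abs_sum_le_sum_abs _ _
        _ ≤ ∑ m ∈ Icc 1 (∏ p ∈ P, p), Real.exp (-(D : ℝ)) * (9 * Real.exp 1) ^ (om P m) :=
            Finset.sum_le_sum (fun m _ => diff_le P hP a D m)
        _ = _ := sum_tail P hP D
    exact le_of_mul_le_mul_left h2 hQ
  · have h1 : ((∏ p ∈ P, p : ℕ) : ℝ) * Mn P (conv (ca a D) (ca a D)) =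
        ∑ m ∈ Icc 1 (∏ p ∈ P, p), Gf P (ca a D) m * Gf P (ca a D) m := by
      rw [← avg_Gf P hP]
      exact Finset.sum_congr rfl (fun m _ => (Gf_mul P hP _ _ m).symm)
    have h2 : ((∏ p ∈ P, p : ℕ) : ℝ) * Mn P (conv (ca a D) (ca a D)) ≤
        ((∏ p ∈ P, p : ℕ) : ℝ) *
          (frac P a + Real.exp (-(D : ℝ)) * pr P (9 * Real.exp 1 - 1)) := by
      rw [h1, mul_add, ← sum_frac P hP, ← sum_tail P hP, ← Finset.sum_add_distrib]
      exact Finset.sum_le_sum (fun m _ => sq_le P hP a D m)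
    exact le_of_mul_le_mul_left h2 hQ

/-- variance: `Mn (conv psi psi) = Mn (conv c c) - (Mn c)^2 ≤ Mn (conv c c)`, and it is
nonnegative (average of a square) -/
theorem psi_var (P : Finset ℕ) (hP : ∀ p ∈ P, p.Prime) (c : Finset ℕ → ℝ) :
    0 ≤ Mn P (conv (psi P c) (psi P c)) ∧
    Mn P (conv (psi P c) (psi P c)) ≤ Mn P (conv c c) := by
  have hQ := prodP_pos P hP
  have h1 : ∀ c' : Finset ℕ → ℝ, ((∏ p ∈ P, p : ℕ) : ℝ) * Mn P (conv c' c') =
      ∑ m ∈ Icc 1 (∏ p ∈ P, p), Gf P c' m * Gf P c' m := by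
    intro c'
    rw [← avg_Gf P hP]
    exact Finset.sum_congr rfl (fun m _ => (Gf_mul P hP _ _ m).symm)
  constructor
  · have h2 : 0 ≤ ((∏ p ∈ P, p : ℕ) : ℝ) * Mn P (conv (psi P c) (psi P c)) := by
      rw [h1]
      exact Finset.sum_nonneg (fun m _ => mul_self_nonneg _)
    exact nonneg_of_mul_nonneg_right h2 hQ
  · have h2 : ((∏ p ∈ P, p : ℕ) : ℝ) * Mn P (conv (psi P c) (psi P c)) =
        ((∏ p ∈ P, p : ℕ) : ℝ) * Mn P (conv c c) -
          ((∏ p ∈ P, p : ℕ) : ℝ) * (Mn P c * Mn P c) := by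
      rw [h1, h1]
      have h3 : ∀ m ∈ Icc 1 (∏ p ∈ P, p), Gf P (psi P c) m * Gf P (psi P c) m =
          Gf P c m * Gf P c m - 2 * Mn P c * Gf P c m + Mn P c * Mn P c := by
        intro m _
        rw [psi_Gf]
        ring
      rw [Finset.sum_congr rfl h3, Finset.sum_add_distrib, Finset.sum_sub_distrib,
        ← Finset.mul_sum, avg_Gf P hP, Finset.sum_const, Nat.card_Icc, nsmul_eq_mul,
        Nat.add_sub_cancel]
      ring
    have h3 : ((∏ p ∈ P, p : ℕ) : ℝ) * Mn P (conv (psi P c) (psi P c)) ≤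
        ((∏ p ∈ P, p : ℕ) : ℝ) * Mn P (conv c c) := by
      rw [h2]
      have : 0 ≤ ((∏ p ∈ P, p : ℕ) : ℝ) * (Mn P c * Mn P c) :=
        mul_nonneg hQ.le (mul_self_nonneg _)
      linarith
    exact le_of_mul_le_mul_left h3 hQ

end Pool.Agent.helper36.NS
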